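import Pool.Agent.Lib.MP_0c2aee_an.StrongE

/-!
# Convex obstacles of given perimeter minimizing the first Dirichlet eigenvalue

There is a bounded planar domain for which, for an interval of perimeters, minimizers exist and
none of them touches the boundary.
-/

set_option autoImplicit false

open MeasureTheory Pool.Agent.MP0c2
open scoped MeasureTheory

namespace Pool.Agent.Results.MP_0c2aee_an.InteriorMinimizers

/-- There are a bounded planar domain `Ω` and `0 < L₁ < L₂ < H¹(∂Ω)`, `τ, δ > 0`, such that for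
every `L` in `[L₁, L₂]` the obstacle problem has a minimizer, no minimizer meets the boundary of
`Ω`, and every admissible obstacle whose eigenvalue is less than `m(Ω, L) + δ` has distance at
least `τ` from the complement of `Ω`. -/
theorem result :
    ∃ Ω : Set Plane, IsOpen Ω ∧ IsConnected Ω ∧ Bornology.IsBounded Ω ∧
      ∃ L₁ L₂ τ δ : ℝ, 0 < L₁ ∧ L₁ < L₂ ∧ 0 < τ ∧ 0 < δ ∧
        ENNReal.ofReal L₂ < μH[1] (frontier Ω) ∧
        ∀ L ∈ Set.Icc L₁ L₂,
          (∃ K, IsMinimizer Ω L K) ∧
          (∀ K, IsMinimizer Ω L K → K ∩ frontier Ω = ∅) ∧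
          (∀ K, IsAdmissible Ω L K → lambda1 (Ω \ K) < optimum Ω L + ENNReal.ofReal δ →
            ∀ x ∈ K, ∀ y ∉ Ω, τ ≤ dist x y) :=
  exists_strongE

end Pool.Agent.Results.MP_0c2aee_an.InteriorMinimizers
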